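import Pool.Agent.Y977.KF.T1

/-! Project KF, piece CR: the crude bound, uniform in the ideal. -/

set_option autoImplicit false

namespace Pool.Agent.Y977.KF

open NumberField FractionalIdeal Module Finset Pool.Agent.Y714.KF
open scoped nonZeroDivisors

variable {K : Type} [Field K] [NumberField K]

theorem SL_mono {κ : Fin (Units.rank K) → ℝ} {I : FI K} {s t : ℝ} (h : s ≤ t) :
    SL κ I s ⊆ SL κ I t := by
  rintro M ⟨P, h1, h2, h3, h4, h5⟩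
  exact ⟨P, h1, h2, h3, h4, h5.trans h⟩

/-- the crude bound for one ideal -/
theorem cr_one (h1 : S_T1 K) (h2 : S_HB K) (hodd : Odd (finrank ℚ K)) (hn : 3 ≤ finrank ℚ K)
    (κ : Fin (Units.rank K) → ℝ) (r : (FI K)ˣ) : ∃ C : ℝ, 0 < C ∧ ∀ t : ℝ, 0 < t →
      (SL κ (r : FI K) t).Finite ∧ ((SL κ (r : FI K) t).ncard : ℝ) ≤ C * t := by
  obtain ⟨A, hA, hrb⟩ := exists_rb_bound hodd κ
  obtain ⟨C1, hC1, hT⟩ := h1 hodd hn κ r
  obtain ⟨c, hc, hHB⟩ := h2 hodd hn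
  set δ : ℝ := √(√A) with hδ
  have hδ2 : δ ^ 2 = √A := Real.sq_sqrt (Real.sqrt_nonneg A)
  have hδ4 : (δ ^ 2) ^ 2 = A := by rw [hδ2, Real.sq_sqrt hA.le]
  have hδpos : 0 < δ := Real.sqrt_pos.2 (Real.sqrt_pos.2 hA)
  have hnm : (0 : ℝ) < ((nm (r : FI K) : ℚ) : ℝ) := by exact_mod_cast nm_pos r.ne_zero
  have key : ∀ Y : ℝ, 1 ≤ Y → (SL κ (r : FI K) (Y ^ (2 * finrank ℚ K))).Finite ∧
      ((SL κ (r : FI K) (Y ^ (2 * finrank ℚ K))).ncard : ℝ) ≤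
        C1 * δ ^ 2 * Y ^ (2 * finrank ℚ K) := by
    intro Y hY
    have hY0 : 0 < Y := by linarith
    have e : {M ∈ SL κ (r : FI K) (Y ^ (2 * finrank ℚ K)) | ∃ x ∈ M, x ≠ 0 ∧
        qf x ≤ (δ * Y) ^ 2} = SL κ (r : FI K) (Y ^ (2 * finrank ℚ K)) := by
      ext M
      refine ⟨fun h => h.1, fun h => ⟨h, ?_⟩⟩
      obtain ⟨Q, rfl, -, -, hQR, hQi, hQA⟩ := exists_basis_SL hodd (by omega) hrb hY0 h
      refine ⟨Q.1, fst_mem_Lt Q, hQi.fst, ?_⟩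
      refine abs_le_of_sq_le_sq' ?_ (by positivity) |>.2
      have q0 := qf_nonneg Q.1
      calc qf Q.1 ^ 2 = qf Q.1 * qf Q.1 := by ring
        _ ≤ qf Q.1 * qf Q.2 := by gcongr; exact hQR.1
        _ ≤ A * Y ^ 4 := hQA
        _ = _ := by rw [← hδ4]; ring
    have := hT δ hδpos Y hY
    rwa [e] at this
  have hge : ∀ t : ℝ, 1 ≤ t → (SL κ (r : FI K) t).Finite ∧
      ((SL κ (r : FI K) t).ncard : ℝ) ≤ C1 * δ ^ 2 * t := by
    intro t ht
    have hn2 : (2 * finrank ℚ K : ℕ) ≠ 0 := by omega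
    have e : (t ^ ((1 : ℝ) / ((2 * finrank ℚ K : ℕ) : ℝ))) ^ (2 * finrank ℚ K) = t := by
      rw [← Real.rpow_natCast, ← Real.rpow_mul (by linarith), one_div,
        inv_mul_cancel₀ (by exact_mod_cast hn2), Real.rpow_one]
    have := key (t ^ ((1 : ℝ) / ((2 * finrank ℚ K : ℕ) : ℝ)))
      (Real.one_le_rpow ht (by positivity))
    rwa [e] at this
  refine ⟨C1 * δ ^ 2 * (1 + 1 / (c * ((nm (r : FI K) : ℚ) : ℝ) ^ 2)), by positivity,
    fun t ht => ?_⟩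
  rcases le_or_gt 1 t with h | h
  · obtain ⟨g1, g2⟩ := hge t h
    refine ⟨g1, g2.trans ?_⟩
    have h3 : 0 ≤ C1 * δ ^ 2 * (1 / (c * ((nm (r : FI K) : ℚ) : ℝ) ^ 2)) * t := by positivity
    nlinarith
  · obtain ⟨g1, g2⟩ := hge 1 le_rfl
    have hsub := SL_mono (κ := κ) (I := (r : FI K)) h.le
    refine ⟨g1.subset hsub, ?_⟩
    rcases (SL κ (r : FI K) t).eq_empty_or_nonempty with he | ⟨M, P, -, hct, hNd, -, hpm⟩
    · rw [he, Set.ncard_empty]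
      push_cast
      positivity
    · have h3 : ((SL κ (r : FI K) t).ncard : ℝ) ≤ ((SL κ (r : FI K) 1).ncard : ℝ) := by
        exact_mod_cast Set.ncard_le_ncard hsub g1
      have h4 := hHB P hNd
      have hi := hNd.ind (show 2 ≤ finrank ℚ K by omega)
      have h5 : nm (r : FI K) ≤ nm (ct P) := nm_anti (ct_ne hi.fst) hct
      have h6 : ((nm (r : FI K) : ℚ) : ℝ) ≤ ((nm (ct P) : ℚ) : ℝ) := by exact_mod_cast h5
      have h7 : c * ((nm (r : FI K) : ℚ) : ℝ) ^ 2 ≤ t := by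
        refine le_trans ?_ (h4.trans hpm)
        gcongr
      have h8 : 1 ≤ 1 / (c * ((nm (r : FI K) : ℚ) : ℝ) ^ 2) * t := by
        rw [one_div, inv_mul_eq_div, le_div_iff₀ (by positivity)]
        linarith
      have h9 : 0 < C1 * δ ^ 2 := by positivity
      calc ((SL κ (r : FI K) t).ncard : ℝ) ≤ C1 * δ ^ 2 * 1 := h3.trans g2
        _ ≤ C1 * δ ^ 2 * (1 / (c * ((nm (r : FI K) : ℚ) : ℝ) ^ 2) * t) := by gcongr
        _ ≤ _ := by nlinarith [mul_pos h9 ht]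

theorem Lt_smul_inj {a : K} (ha : a ≠ 0) {P Q : K × K} (h : Lt (a • P) = Lt (a • Q)) :
    Lt P = Lt Q := by
  ext y
  have h1 := mem_Lt_smul (P := P) (y := a * y) ha
  have h2 := mem_Lt_smul (P := Q) (y := a * y) ha
  rw [← mul_assoc, inv_mul_cancel₀ ha, one_mul] at h1 h2
  rw [← h1, ← h2, h]

theorem sp_unit (u : (𝓞 K)ˣ) : sp (u : K) = 1 := by
  refine le_antisymm ?_ ?_
  · rw [sp_le]
    exact FractionalIdeal.coe_mem_one (𝓞 K)⁰ (u : 𝓞 K)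
  · have h1 : sp ((u⁻¹ : (𝓞 K)ˣ) : K) ≤ 1 := by
      rw [sp_le]
      exact FractionalIdeal.coe_mem_one (𝓞 K)⁰ ((u⁻¹ : (𝓞 K)ˣ) : 𝓞 K)
    have h2 : sp (u : K) * sp ((u⁻¹ : (𝓞 K)ˣ) : K) = 1 := by
      rw [← sp_mul, ← map_mul, ← Units.val_mul, mul_inv_cancel, Units.val_one, map_one]
      exact spanSingleton_one
    calc (1 : FI K) = sp (u : K) * sp ((u⁻¹ : (𝓞 K)ˣ) : K) := h2.symm
      _ ≤ sp (u : K) * 1 := by gcongr
      _ = sp (u : K) := mul_one _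

theorem Nz_congr {κ : Fin (Units.rank K) → ℝ} {v w : (K →+* ℂ) → ℂ × ℂ} (h : cc v = cc w)
    (hv : Nz κ v) : Nz κ w := by
  intro j
  rw [← h]
  exact hv j

theorem cr (h1 : S_T1 K) (h2 : S_HB K) (h3 : S_CLS K) : S_CR K := by
  intro hodd hn κ
  obtain ⟨R, hR, -⟩ := h3
  choose Cr hCr hCr2 using fun r => cr_one h1 h2 hodd hn κ r
  have hnm : ∀ r : (FI K)ˣ, (0 : ℝ) < ((nm (r : FI K) : ℚ) : ℝ) := fun r => by
    exact_mod_cast nm_pos r.ne_zero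
  obtain ⟨Ci, hCi, hineq⟩ := ineqs (J := K →+* ℂ) (by rw [card_emb]; exact hodd)
  have hpos : ∀ r ∈ R, 0 ≤ Cr r * ((nm (r : FI K) : ℚ) : ℝ) ^ 2 := fun r _ => by
    have := hCr r
    positivity
  refine ⟨∑ r ∈ R, Cr r * ((nm (r : FI K) : ℚ) : ℝ) ^ 2 + 1, by
    have := sum_nonneg hpos
    linarith, fun I t ht => ?_⟩
  obtain ⟨r, hr, x, hx, hI⟩ := hR I
  have hx' : x⁻¹ ≠ 0 := inv_ne_zero hx
  -- the map
  have hch : ∀ M : Submodule ℤ K, ∃ (P : K × K) (u : (𝓞 K)ˣ), M ∈ SL κ (I : FI K) t →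
      (M = Lt P ∧ ct P ≤ I ∧ Nd P ∧ Nz κ (vec P) ∧ pm (vec P) ≤ t ∧
        Nz κ (vec ((u : K) • (x⁻¹ • P)))) := by
    intro M
    by_cases hM : M ∈ SL κ (I : FI K) t
    · obtain ⟨P, e1, e2, e3, e4, e5⟩ := hM
      have hN := e3.smul hx'
      have hv := hN.pm_pos (show 2 ≤ finrank ℚ K by omega)
      obtain ⟨u, hu⟩ := exists_unit_nz hv (hineq _ hv).1 κ
      exact ⟨P, u, fun _ => ⟨e1, e2, e3, e4, e5, by rw [vec_smul]; exact hu⟩⟩
    · exact ⟨(0, 0), 1, fun h => absurd h hM⟩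
  choose Pf uf hPf using hch
  set t' : ℝ := t * ((nm (r : FI K) : ℚ) : ℝ) ^ 2 / ((nm (I : FI K) : ℚ) : ℝ) ^ 2 with ht'
  have hnI := hnm I
  have hnr := hnm r
  have ht'0 : 0 < t' := by positivity
  obtain ⟨g1, g2⟩ := hCr2 r t' ht'0
  have hu0 : ∀ u : (𝓞 K)ˣ, (u : K) ≠ 0 := fun u => Units.coe_ne_zero u
  have hmaps : ∀ M ∈ SL κ (I : FI K) t, Lt ((uf M : K) • (x⁻¹ • Pf M)) ∈ SL κ (r : FI K) t' := by
    intro M hM
    obtain ⟨e1, e2, e3, e4, e5, e6⟩ := hPf M hM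
    refine ⟨_, rfl, ?_, (e3.smul hx').smul (hu0 _), e6, ?_⟩
    · rw [ct_smul, ct_smul, sp_unit, one_mul]
      calc sp x⁻¹ * ct (Pf M) ≤ sp x⁻¹ * (I : FI K) := by gcongr
        _ = (r : FI K) := by
          rw [hI, ← mul_assoc, ← sp_mul, inv_mul_cancel₀ hx]
          show spanSingleton (𝓞 K)⁰ (1 : K) * (r : FI K) = r
          rw [spanSingleton_one, one_mul]
    · rw [pm_vec_smul, pm_vec_smul, sp_unit]
      have h4 : nm (1 : FI K) = 1 := map_one _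
      have h5 : nm (sp x⁻¹) = nm (r : FI K) / nm (I : FI K) := by
        rw [hI, nm, nm, nm, map_mul]
        have h6 : absNorm (sp x⁻¹) * absNorm (sp x) = 1 := by
          rw [← map_mul, ← sp_mul, inv_mul_cancel₀ hx]
          show absNorm (spanSingleton (𝓞 K)⁰ (1 : K)) = 1
          rw [spanSingleton_one, map_one]
        have h7 : absNorm (sp x) ≠ 0 := fun h0 => by rw [h0, mul_zero] at h6; exact zero_ne_one h6
        have h8 : absNorm (r : FI K) ≠ 0 := (nm_pos r.ne_zero).ne'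
        rw [eq_div_iff (mul_ne_zero h7 h8), ← mul_assoc, h6, one_mul]
      rw [h4, h5, ht']
      push_cast
      rw [one_pow, one_mul, div_pow, div_mul_eq_mul_div]
      refine div_le_div_of_nonneg_right ?_ (by positivity)
      rw [mul_comm t]
      exact mul_le_mul_of_nonneg_left e5 (by positivity)
  have hinj : Set.InjOn (fun M => Lt ((uf M : K) • (x⁻¹ • Pf M))) (SL κ (I : FI K) t) := by
    intro M hM M' hM' heq
    simp only at heq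
    obtain ⟨e1, e2, e3, e4, e5, e6⟩ := hPf M hM
    obtain ⟨f1, f2, f3, f4, f5, f6⟩ := hPf M' hM'
    set w : (𝓞 K)ˣ := uf M * (uf M')⁻¹ with hw
    have hwK : ((uf M' : K) * x⁻¹) * (w : K) = (uf M : K) * x⁻¹ := by
      have : (uf M' : K) * (w : K) = (uf M : K) := by
        rw [hw, ← map_mul, ← Units.val_mul, mul_comm (uf M), mul_inv_cancel_left]
      rw [← this]
      ring
    have heq2 : Lt (((uf M' : K) * x⁻¹) • ((w : K) • Pf M)) = Lt (((uf M' : K) * x⁻¹) • Pf M') := by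
      rw [smul_smul, hwK, ← smul_smul, ← smul_smul, heq]
    have h4 := Lt_smul_inj (mul_ne_zero (hu0 _) hx') heq2
    have h5 : Nd ((w : K) • Pf M) := e3.smul (hu0 _)
    have h6 := (Lt_inv hodd (show 2 ≤ finrank ℚ K by omega) f3
      (h5.ind (show 2 ≤ finrank ℚ K by omega)) h4.symm).2.2.1
    have h7 : Nz κ (fun σ => σ (w : K) • vec (Pf M) σ) := by
      rw [← vec_smul]
      exact Nz_congr h6.symm f4
    have hv := e3.pm_pos (show 2 ≤ finrank ℚ K by omega)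
    rw [e1, f1, ← h4]
    rcases unit_nz_unique hv (hineq _ hv).1 hodd κ w e4 h7 with h8 | h8
    · rw [h8]
      simp
    · rw [h8]
      refine le_antisymm (Lt_le_iff.2 ⟨?_, ?_⟩) (Lt_le_iff.2 ⟨?_, ?_⟩)
      · exact mem_Lt.2 ⟨-1, 0, by simp⟩
      · exact mem_Lt.2 ⟨0, -1, by simp⟩
      · exact mem_Lt.2 ⟨-1, 0, by simp⟩
      · exact mem_Lt.2 ⟨0, -1, by simp⟩
  refine ⟨Set.Finite.of_injOn hmaps hinj g1, ?_⟩
  have h4 : ((SL κ (I : FI K) t).ncard : ℝ) ≤ ((SL κ (r : FI K) t').ncard : ℝ) := by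
    exact_mod_cast Set.ncard_le_ncard_of_injOn _ hmaps hinj g1
  have h5 : Cr r * ((nm (r : FI K) : ℚ) : ℝ) ^ 2 ≤
      ∑ r ∈ R, Cr r * ((nm (r : FI K) : ℚ) : ℝ) ^ 2 := single_le_sum hpos hr
  calc ((SL κ (I : FI K) t).ncard : ℝ) ≤ Cr r * t' := h4.trans g2
    _ = Cr r * ((nm (r : FI K) : ℚ) : ℝ) ^ 2 * t / ((nm (I : FI K) : ℚ) : ℝ) ^ 2 := by
      rw [ht']; ring
    _ ≤ _ := by gcongr; linarith

end Pool.Agent.Y977.KF
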