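import Mathlib

/-! Counting lattices by the first vector of a basis. -/

set_option autoImplicit false

namespace Pool.Agent.Y977.KF

open Finset

theorem one_le_norm_int {N : ℕ} {z : Fin N → ℤ} (h : z ≠ 0) : 1 ≤ ‖z‖ := by
  obtain ⟨i, hi⟩ := Function.ne_iff.1 h
  refine le_trans ?_ (norm_le_pi_norm z i)
  rw [Int.norm_eq_abs]
  have : (1 : ℤ) ≤ |z i| := Int.one_le_abs hi
  exact_mod_cast this

theorem count {m : ℕ} {C1 : ℝ} (hC1 : 0 < C1)
    (h1 : ∀ X : ℝ, 0 < X → ∀ S : Finset (Fin (m + 1) → ℤ), (∀ z ∈ S, z ≠ 0 ∧ ‖z‖ ≤ X) →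
      ∑ z ∈ S, ‖z‖ ^ 2 / ‖z‖ ^ (m + 1) ≤ C1 * X ^ 2)
    (h2 : ∀ X : ℝ, 1 ≤ X → {z : Fin (m + 1) → ℤ | ‖z‖ ≤ X}.Finite ∧
      ({z : Fin (m + 1) → ℤ | ‖z‖ ≤ X}.ncard : ℝ) ≤ C1 * X ^ (m + 1))
    {T : Type} (G : (Fin (m + 1) → ℤ) → (Fin (m + 1) → ℤ) → T)
    (hG : ∀ z w (j : ℕ), G z (w + j • z) = G z w) {B Y X : ℝ} (hB : 0 < B) (hY : 1 ≤ Y)
    (hX : 0 < X) (S : Set T)
    (hS : ∀ M ∈ S, ∃ z w, G z w = M ∧ z ≠ 0 ∧ ‖z‖ * ‖w‖ ≤ B * Y ^ 2 ∧ ‖z‖ ^ 2 ≤ B * Y ^ 2 ∧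
      ‖z‖ ≤ X) :
    S.Finite ∧ (S.ncard : ℝ) ≤ C1 ^ 2 * 2 ^ (m + 1) * B ^ m * Y ^ (2 * m) * X ^ 2 := by
  classical
  have hfin : S.Finite := by
    have f1 := (h2 (max 1 X) (le_max_left _ _)).1
    have f2 := (h2 (max 1 (B * Y ^ 2)) (le_max_left _ _)).1
    refine ((f1.prod f2).image (fun q => G q.1 q.2)).subset ?_
    intro M hM
    obtain ⟨z, w, rfl, hz, hzw, -, hzX⟩ := hS M hM
    refine ⟨(z, w), ⟨?_, ?_⟩, rfl⟩
    · exact le_trans hzX (le_max_right _ _)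
    · show ‖w‖ ≤ max 1 (B * Y ^ 2)
      refine le_trans ?_ (le_max_right _ _)
      have := one_le_norm_int hz
      calc ‖w‖ = 1 * ‖w‖ := (one_mul _).symm
        _ ≤ ‖z‖ * ‖w‖ := by gcongr
        _ ≤ _ := hzw
  refine ⟨hfin, ?_⟩
  have hch : ∀ M : T, ∃ z w, M ∈ S → (G z w = M ∧ z ≠ 0 ∧ ‖z‖ * ‖w‖ ≤ B * Y ^ 2 ∧
      ‖z‖ ^ 2 ≤ B * Y ^ 2 ∧ ‖z‖ ≤ X) := by
    intro M
    by_cases hM : M ∈ S
    · obtain ⟨z, w, h⟩ := hS M hM
      exact ⟨z, w, fun _ => h⟩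
    · exact ⟨0, 0, fun h => absurd h hM⟩
  choose zf wf hzw using hch
  set F := hfin.toFinset with hF
  have hmem : ∀ M, M ∈ F ↔ M ∈ S := fun M => hfin.mem_toFinset
  rw [Set.ncard_eq_toFinset_card S hfin]
  set Z := F.image zf with hZ
  have hZm : ∀ z ∈ Z, z ≠ 0 ∧ ‖z‖ ≤ X := by
    intro z hz
    obtain ⟨M, hM, rfl⟩ := mem_image.1 hz
    have := hzw M ((hmem M).1 hM)
    exact ⟨this.2.1, this.2.2.2.2⟩
  have hcard : F.card = ∑ z ∈ Z, (F.filter fun M => zf M = z).card :=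
    card_eq_sum_card_fiberwise fun M hM => mem_image_of_mem zf hM
  have hfib : ∀ z ∈ Z, ((F.filter fun M => zf M = z).card : ℝ) ≤
      C1 * 2 ^ (m + 1) * B ^ m * Y ^ (2 * m) * (‖z‖ ^ 2 / ‖z‖ ^ (m + 1)) := by
    intro z hz
    obtain ⟨hz0, -⟩ := hZm z hz
    have hz1 := one_le_norm_int hz0
    obtain ⟨M0, hM0, hM0z⟩ := mem_image.1 hz
    have hzB : ‖z‖ ^ 2 ≤ B * Y ^ 2 := by
      have := (hzw M0 ((hmem M0).1 hM0)).2.2.2.1
      rwa [hM0z] at this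
    set R := B * Y ^ 2 / ‖z‖ with hR
    have hzpos : 0 < ‖z‖ := by linarith
    have hRz : ‖z‖ ≤ R := by rw [hR, le_div_iff₀ hzpos]; nlinarith
    have hRpos : 0 < R := by linarith
    obtain ⟨g1, g2⟩ := h2 (2 * R) (by linarith)
    set J := ⌊R / ‖z‖⌋₊ + 1 with hJ
    have hle : ((F.filter fun M => zf M = z) ×ˢ range J).card ≤ g1.toFinset.card := by
      refine card_le_card_of_injOn (fun q => wf q.1 + q.2 • z) ?_ ?_
      · rintro ⟨M, j⟩ hMj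
        simp only [coe_product, Set.mem_prod, mem_coe, mem_filter, mem_range] at hMj
        obtain ⟨⟨hM, hMz⟩, hj⟩ := hMj
        obtain ⟨-, -, hw, -, -⟩ := hzw M ((hmem M).1 hM)
        rw [hMz] at hw
        rw [Set.Finite.coe_toFinset]
        show ‖wf M + j • z‖ ≤ 2 * R
        have hw' : ‖wf M‖ ≤ R := by rw [hR, le_div_iff₀ hzpos]; linarith
        have hj' : (j : ℝ) ≤ R / ‖z‖ := by
          have : j ≤ ⌊R / ‖z‖⌋₊ := by omega
          exact (Nat.le_floor_iff (by positivity)).1 this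
        have hjz : ‖j • z‖ ≤ R := by
          refine (norm_nsmul_le).trans ?_
          rw [le_div_iff₀ hzpos] at hj'
          linarith
        linarith [norm_add_le (wf M) (j • z)]
      · rintro ⟨M, j⟩ hMj ⟨M', j'⟩ hMj' heq
        simp only [coe_product, Set.mem_prod, mem_coe, mem_filter, mem_range] at hMj hMj'
        obtain ⟨⟨hM, hMz⟩, hj⟩ := hMj
        obtain ⟨⟨hM', hMz'⟩, hj'⟩ := hMj'
        simp only at heq
        have e1 := (hzw M ((hmem M).1 hM)).1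
        have e2 := (hzw M' ((hmem M').1 hM')).1
        rw [hMz] at e1
        rw [hMz'] at e2
        have e3 : M = M' := by
          rw [← e1, ← e2, ← hG z (wf M) j, heq, hG]
        subst e3
        have e4 : j • z = j' • z := add_left_cancel heq
        have e5 : j = j' := by
          obtain ⟨i, hi⟩ := Function.ne_iff.1 hz0
          have := congrFun e4 i
          simp only [Pi.smul_apply, nsmul_eq_mul] at this
          have h6 := mul_right_cancel₀ hi this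
          exact_mod_cast h6
        rw [e5]
    rw [card_product, card_range, ← Set.ncard_eq_toFinset_card _ g1] at hle
    have hle' : ((F.filter fun M => zf M = z).card : ℝ) * (R / ‖z‖) ≤ C1 * (2 * R) ^ (m + 1) := by
      refine le_trans ?_ g2
      have h3 : (R / ‖z‖ : ℝ) ≤ (J : ℝ) := by
        rw [hJ]; push_cast; exact (Nat.lt_floor_add_one _).le
      calc ((F.filter fun M => zf M = z).card : ℝ) * (R / ‖z‖) ≤
          ((F.filter fun M => zf M = z).card : ℝ) * J := by gcongr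
        _ ≤ _ := by exact_mod_cast hle
    have h4 : C1 * 2 ^ (m + 1) * B ^ m * Y ^ (2 * m) * (‖z‖ ^ 2 / ‖z‖ ^ (m + 1)) * (R / ‖z‖) =
        C1 * (2 * R) ^ (m + 1) := by
      have e1 : B ^ m * Y ^ (2 * m) = R ^ m * ‖z‖ ^ m := by
        rw [← mul_pow, hR, div_mul_cancel₀ _ hzpos.ne', mul_pow, ← pow_mul]
      calc C1 * 2 ^ (m + 1) * B ^ m * Y ^ (2 * m) * (‖z‖ ^ 2 / ‖z‖ ^ (m + 1)) * (R / ‖z‖) =
          C1 * 2 ^ (m + 1) * (B ^ m * Y ^ (2 * m)) * (‖z‖ ^ 2 / ‖z‖ ^ (m + 1)) * (R / ‖z‖) := by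
            ring
        _ = _ := by
            rw [e1]
            field_simp
            ring
    have h5 : 0 < R / ‖z‖ := by positivity
    rw [← h4] at hle'
    exact le_of_mul_le_mul_right hle' h5
  rw [hcard]
  push_cast
  refine (sum_le_sum hfib).trans ?_
  rw [← mul_sum]
  have h6 := h1 X hX Z hZm
  have h7 : 0 ≤ C1 * 2 ^ (m + 1) * B ^ m * Y ^ (2 * m) := by positivity
  calc C1 * 2 ^ (m + 1) * B ^ m * Y ^ (2 * m) * ∑ z ∈ Z, ‖z‖ ^ 2 / ‖z‖ ^ (m + 1) ≤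
      C1 * 2 ^ (m + 1) * B ^ m * Y ^ (2 * m) * (C1 * X ^ 2) := mul_le_mul_of_nonneg_left h6 h7
    _ = _ := by ring

end Pool.Agent.Y977.KF
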