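import Pool.Agent.Y714.KF.Stm
import Pool.Agent.Y977.KF.Cnt

/-! Project KF, piece T1: lattices with a short vector. -/

set_option autoImplicit false

namespace Pool.Agent.Y977.KF

open NumberField FractionalIdeal Module Finset Pool.Agent.Y714.KF
open scoped nonZeroDivisors

variable {K : Type} [Field K] [NumberField K]

theorem norm_cast {ι : Type} [Fintype ι] (z : ι → ℤ) : ‖fun i => (z i : ℝ)‖ = ‖z‖ := by
  refine le_antisymm ?_ ?_
  · refine (pi_norm_le_iff_of_nonneg (norm_nonneg _)).2 fun i => ?_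
    rw [Int.norm_cast_real]
    exact norm_le_pi_norm z i
  · refine (pi_norm_le_iff_of_nonneg (norm_nonneg _)).2 fun i => ?_
    rw [← Int.norm_cast_real]
    exact norm_le_pi_norm (fun i => (z i : ℝ)) i

/-- a lattice in the set has a reduced basis with the right bounds -/
theorem exists_basis_SL (hodd : Odd (finrank ℚ K)) (hn : 2 ≤ finrank ℚ K)
    {κ : Fin (Units.rank K) → ℝ} {I : FI K} {A : ℝ}
    (hrb : ∀ P : K × K, 0 < pm (vec P) → RB P → (∀ j, κ j ≤ cc (vec P) j ∧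
      cc (vec P) j ≤ κ j + 1) → ∀ Y : ℝ, 0 < Y → pm (vec P) ≤ Y ^ (2 * finrank ℚ K) →
      qf P.1 * qf P.2 ≤ A * Y ^ 4) {Y : ℝ} (hY : 0 < Y) {M : Submodule ℤ K}
    (hM : M ∈ SL κ I (Y ^ (2 * finrank ℚ K))) :
    ∃ Q : K × K, M = Lt Q ∧ Q.1 ∈ I ∧ Q.2 ∈ I ∧ RB Q ∧ Ind Q ∧ qf Q.1 * qf Q.2 ≤ A * Y ^ 4 := by
  obtain ⟨P, rfl, hct, hNd, hNz, hpm⟩ := hM
  obtain ⟨Q, hQL, hQR, hQN⟩ := exists_rb hNd hn
  have hQi := hQN.ind hn
  obtain ⟨-, i2, i3, -⟩ := Lt_inv hodd hn hNd hQi hQL.symm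
  refine ⟨Q, hQL.symm, ?_, ?_, hQR, hQi, ?_⟩
  · exact Lt_mem hct (hQL ▸ fst_mem_Lt Q)
  · exact Lt_mem hct (hQL ▸ snd_mem_Lt Q)
  · refine hrb Q (hQN.pm_pos hn) hQR (fun j => ?_) Y hY (i2 ▸ hpm)
    rw [i3]
    exact ⟨(hNz j).1, (hNz j).2.le⟩

theorem t1 (h : S_SUM) : S_T1 K := by
  intro hodd hn κ I
  obtain ⟨b, hb⟩ := exists_basis I
  obtain ⟨c, C0, hc, hC0, hbf⟩ := exists_bf_bound b
  obtain ⟨A, hA, hrb⟩ := exists_rb_bound hodd κ
  generalize hN : finrank ℚ K = n at *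
  obtain ⟨m, rfl⟩ : ∃ m, n = m + 1 := ⟨n - 1, by omega⟩
  obtain ⟨C1, hC1, hs1, hs2⟩ := h (m + 1) (by omega)
  set B : ℝ := √A / c with hBdef
  have hsA : 0 < √A := Real.sqrt_pos.2 hA
  have hB : 0 < B := by positivity
  have hcB : c ^ 2 * B ^ 2 = A := by
    rw [hBdef, div_pow, Real.sq_sqrt hA.le]
    field_simp
  have hq : ∀ z : Fin (m + 1) → ℤ, c * ‖z‖ ^ 2 ≤ qf (el b z) := by
    intro z
    rw [qf_el]
    have := (hbf fun i => (z i : ℝ)).1
    rwa [norm_cast] at this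
  refine ⟨C1 ^ 2 * 2 ^ (m + 1) * B ^ m * c⁻¹, by positivity, fun δ hδ Y hY => ?_⟩
  have hY0 : 0 < Y := by linarith
  have hkey := count hC1 hs1 hs2 (fun z w => Lt (el b z, el b w))
    (fun z w j => by
      show Lt (el b z, el b (w + j • z)) = Lt (el b z, el b w)
      have e : el b (w + j • z) = el b w + (j : ℤ) * el b z := by
        rw [el_add, ← natCast_zsmul, el_smul]
      have e2 : glz 1 0 j 1 (el b z, el b w) = (el b z, el b (w + j • z)) := by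
        rw [e]
        simp only [glz]
        refine Prod.ext ?_ ?_
        · push_cast; ring
        · push_cast; ring
      rw [← e2, Lt_glz 1 0 j 1 (by left; ring)])
    hB hY (X := δ * Y / √c) (by positivity)
    {M ∈ SL κ (I : FI K) (Y ^ (2 * (m + 1))) | ∃ x ∈ M, x ≠ 0 ∧ qf x ≤ (δ * Y) ^ 2}
    (by
      rintro M ⟨hM, x, hxM, hx0, hxq⟩
      rw [← hN] at hM hodd hn
      obtain ⟨Q, rfl, hQ1, hQ2, hQR, hQi, hQA⟩ := exists_basis_SL hodd (by omega) (by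
        rw [hN]; exact hrb) hY0 hM
      obtain ⟨z, hz⟩ := (hb _).1 hQ1
      obtain ⟨w, hw⟩ := (hb _).1 hQ2
      have hz0 : z ≠ 0 := by
        rintro rfl
        apply hQi.fst
        rw [hz]
        simp [el]
      have q1 := hq z
      have q2 := hq w
      rw [← hz] at q1
      rw [← hw] at q2
      have q3 := hQR.1
      have q0 := qf_nonneg Q.1
      have q4 := hQR.min hQi hxM hx0
      refine ⟨z, w, ?_, hz0, ?_, ?_, ?_⟩
      · show Lt (el b z, el b w) = Lt Q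
        rw [← hz, ← hw]
      · refine abs_le_of_sq_le_sq' ?_ (by positivity) |>.2
        have h1 : c ^ 2 * (‖z‖ * ‖w‖) ^ 2 ≤ c ^ 2 * (B * Y ^ 2) ^ 2 := by
          calc c ^ 2 * (‖z‖ * ‖w‖) ^ 2 = (c * ‖z‖ ^ 2) * (c * ‖w‖ ^ 2) := by ring
            _ ≤ qf Q.1 * qf Q.2 := by gcongr
            _ ≤ A * Y ^ 4 := hQA
            _ = _ := by rw [← hcB]; ring
        exact le_of_mul_le_mul_left h1 (by positivity)
      · refine abs_le_of_sq_le_sq' ?_ (by positivity) |>.2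
        have h1 : c ^ 2 * (‖z‖ ^ 2) ^ 2 ≤ c ^ 2 * (B * Y ^ 2) ^ 2 := by
          calc c ^ 2 * (‖z‖ ^ 2) ^ 2 = (c * ‖z‖ ^ 2) * (c * ‖z‖ ^ 2) := by ring
            _ ≤ qf Q.1 * qf Q.1 := by gcongr
            _ ≤ qf Q.1 * qf Q.2 := by gcongr
            _ ≤ A * Y ^ 4 := hQA
            _ = _ := by rw [← hcB]; ring
        exact le_of_mul_le_mul_left h1 (by positivity)
      · refine abs_le_of_sq_le_sq' ?_ (by positivity) |>.2
        rw [div_pow, Real.sq_sqrt hc.le, le_div_iff₀ hc]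
        linarith)
  refine ⟨hkey.1, hkey.2.trans (le_of_eq ?_)⟩
  rw [div_pow (δ * Y) (√c), Real.sq_sqrt hc.le]
  rw [show Y ^ (2 * (m + 1)) = Y ^ (2 * m) * Y ^ 2 by ring, div_eq_mul_inv, mul_pow δ Y 2]
  ring

end Pool.Agent.Y977.KF
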